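import Mathlib
import Pool.Agent.Y918.SC.Tup

/-!
# The choice between logarithms and exponentials is trivial for logarithms of algebraic numbers

After `Pool.Agent.Results.MP_ae0f86_nt.LogarithmsOfArithmeticFunctions` (helper96).
-/

set_option autoImplicit false

namespace Pool.Agent.K3h34.PM

open Pool.Agent.H301R2.SSE (QB mem_QB)
open Pool.Agent.Y918.SC (vl)

/-- The choice between logarithms and exponentials is trivial if the exponentials are algebraic. -/
theorem no_choice {k m D : ℕ} (W : Submodule QB ℂ) (z : Fin k → Fin m → ℂ)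
    (hz : ∀ j c, IsAlgebraic ℚ (Complex.exp (z j c)))
    (T : Fin k → Fin m → Fin m ⊕ Fin m) (hT : ∀ j, Function.Injective (T j))
    (h : ∀ P : MvPolynomial (Fin k × Fin m) ℂ, (∀ v, P.degreeOf v ≤ D) → (∀ s, P.coeff s ∈ W) →
      MvPolynomial.eval (fun v : Fin k × Fin m => vl (z v.1) (T v.1 v.2)) P = 0 → P = 0)
    (P : MvPolynomial (Fin k × Fin m) ℂ) (hdeg : ∀ v, P.degreeOf v ≤ D) (hW : ∀ s, P.coeff s ∈ W)
    (h0 : MvPolynomial.eval (fun v : Fin k × Fin m => z v.1 v.2) P = 0) : P = 0 := by
  classical
  by_contra hP
  obtain ⟨s, hs⟩ := MvPolynomial.ne_zero_iff.1 hP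
  set w : ℂ := P.coeff s with hw
  have hwW : w ∈ W := hW s
  -- the degree bound is positive
  have hD : 1 ≤ D := by
    by_contra hD
    have hD0 : ∀ v, P.degreeOf v = 0 := fun v => by have := hdeg v; omega
    have hC : ∀ t, P.coeff t ≠ 0 → t = 0 := by
      intro t ht
      ext v
      have h1 := MvPolynomial.degreeOf_le_iff.1 (hD0 v).le t (MvPolynomial.mem_support_iff.2 ht)
      simpa using h1
    have hPC : P = MvPolynomial.C (P.coeff 0) := by
      ext t
      rw [MvPolynomial.coeff_C]
      split_ifs with h1
      · rw [← h1]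
      · by_contra h2
        exact h1 (hC t h2).symm
    rw [hPC, MvPolynomial.eval_C] at h0
    apply hP
    rw [hPC, h0, MvPolynomial.C_0]
  -- all the chosen numbers are logarithms
  have hinl : ∀ j i, ∃ c, T j i = Sum.inl c := by
    intro j i
    rcases hTji : T j i with c | c
    · exact ⟨c, rfl⟩
    · exfalso
      set a : ℂ := Complex.exp (z j c) with ha
      have haQ : a ∈ QB := mem_QB.2 (hz j c)
      have hne : (MvPolynomial.C w * MvPolynomial.X (j, i) - MvPolynomial.C (a * w) :
          MvPolynomial (Fin k × Fin m) ℂ) ≠ 0 := by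
        intro h1
        have h2 := congrArg (MvPolynomial.coeff (Finsupp.single (j, i) 1)) h1
        have h5 : (0 : Fin k × Fin m →₀ ℕ) ≠ Finsupp.single (j, i) 1 := by
          intro h3
          have h4 := DFunLike.congr_fun h3 (j, i)
          simp at h4
        rw [MvPolynomial.coeff_sub, MvPolynomial.coeff_C_mul, MvPolynomial.coeff_X,
          MvPolynomial.coeff_C, if_pos rfl, if_neg h5, MvPolynomial.coeff_zero] at h2
        apply hs
        simpa using h2
      apply hne
      apply h
      · intro v
        refine (MvPolynomial.degreeOf_sub_le _ _ _).trans ?_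
        rw [MvPolynomial.degreeOf_C]
        refine (max_le ((MvPolynomial.degreeOf_C_mul_le _ _ _).trans ?_) (Nat.zero_le _)).trans hD
        rw [MvPolynomial.degreeOf_X]
        split_ifs <;> omega
      · intro t
        rw [MvPolynomial.coeff_sub, MvPolynomial.coeff_C_mul, MvPolynomial.coeff_X,
          MvPolynomial.coeff_C]
        refine W.sub_mem ?_ ?_
        · split_ifs
          · simpa using hwW
          · simp
        · split_ifs
          · exact W.smul_mem ⟨a, haQ⟩ hwW
          · exact W.zero_mem
      · rw [map_sub, map_mul, MvPolynomial.eval_C, MvPolynomial.eval_X, MvPolynomial.eval_C]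
        simp only [hTji]
        show w * Complex.exp (z j c) - a * w = 0
        rw [← ha]
        ring
  choose σ hσ using hinl
  have hσi : ∀ j, Function.Injective (σ j) := by
    intro j i i' h1
    apply hT j
    rw [hσ, hσ, h1]
  have hσb : ∀ j, Function.Bijective (σ j) := fun j => Finite.injective_iff_bijective.1 (hσi j)
  let τ : Fin k → (Fin m ≃ Fin m) := fun j => (Equiv.ofBijective (σ j) (hσb j)).symm
  have hτ : ∀ j c, σ j (τ j c) = c := fun j c => (Equiv.ofBijective (σ j) (hσb j)).apply_symm_apply c
  let e : Fin k × Fin m → Fin k × Fin m := fun v => (v.1, τ v.1 v.2)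
  have he : Function.Injective e := by
    rintro ⟨j, c⟩ ⟨j', c'⟩ h1
    simp only [e, Prod.mk.injEq] at h1
    obtain ⟨rfl, h2⟩ := h1
    rw [(τ j).injective h2]
  have hfin : MvPolynomial.rename e P = 0 := by
    apply h
    · intro v
      by_cases hv : v ∈ Set.range e
      · obtain ⟨u, rfl⟩ := hv
        rw [MvPolynomial.degreeOf_rename_of_injective he]
        exact hdeg u
      · have he' : Function.Surjective e := Finite.injective_iff_surjective.1 he
        exact absurd (he' v) hv
    · intro t
      by_cases ht : (MvPolynomial.rename e P).coeff t = 0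
      · rw [ht]; exact W.zero_mem
      · obtain ⟨u, rfl, -⟩ := MvPolynomial.coeff_rename_ne_zero _ _ _ ht
        rw [MvPolynomial.coeff_rename_mapDomain _ he]
        exact hW u
    · rw [MvPolynomial.eval_rename]
      rw [← h0]
      congr 2
      funext v
      show vl (z v.1) (T v.1 (τ v.1 v.2)) = z v.1 v.2
      rw [hσ, hτ]
      rfl
  exact hP ((MvPolynomial.rename_injective e he) (by rw [hfin, map_zero]))


end Pool.Agent.K3h34.PM
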