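import Mathlib
import Pool.Agent.Y918.SC.Tup
import Pool.Agent.K3h34.PM.NoChoice

/-!
# Monomials over a space of coefficients, for any finite set of variables
-/

set_option autoImplicit false

namespace Pool.Agent.K3h34.PM

open Module Finset
open Pool.Agent.H301R2.SSE (QB mem_QB)
open Pool.Agent.W245 (IndepOver IndepT famExt famExt_finite)
open Pool.Agent.Y918.SC (vl mT poly_of_good)

/-- The monomials of degree at most `D` in each variable. -/
noncomputable def mo {σ : Type} [Fintype σ] (D : ℕ) (z : σ → ℂ) (e : σ → Fin (D + 1)) : ℂ :=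
  ∏ i, z i ^ (e i : ℕ)

/-- Exponents. -/
noncomputable def ex {σ : Type} [Fintype σ] {D : ℕ} (e : σ → Fin (D + 1)) : σ →₀ ℕ :=
  Finsupp.equivFunOnFinite.symm (fun p => (e p : ℕ))

theorem ex_injective {σ : Type} [Fintype σ] {D : ℕ} :
    Function.Injective (ex : (σ → Fin (D + 1)) → (σ →₀ ℕ)) := by
  intro s s' h
  funext i
  exact Fin.ext (DFunLike.congr_fun h i)

/-- The numbers `z` satisfy no polynomial relation over `W` of degree at most `D` in each. -/
def PI {σ : Type} (D : ℕ) (W : Submodule QB ℂ) (z : σ → ℂ) : Prop :=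
  ∀ P : MvPolynomial σ ℂ, (∀ v, P.degreeOf v ≤ D) → (∀ s, P.coeff s ∈ W) →
    MvPolynomial.eval z P = 0 → P = 0

theorem eval_monomial_ex {σ : Type} [Fintype σ] {D : ℕ} (z : σ → ℂ) (e : σ → Fin (D + 1)) (c : ℂ) :
    MvPolynomial.eval z (MvPolynomial.monomial (ex e) c) = c * mo D z e := by
  rw [MvPolynomial.eval_monomial, mo, Finsupp.prod_fintype _ _ (fun i => pow_zero _)]
  rfl

theorem PI.indep {σ : Type} [Fintype σ] [DecidableEq σ] {D : ℕ} {W : Submodule QB ℂ} {z : σ → ℂ}
    (h : PI D W z) : IndepOver W (mo D z) := by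
  intro c hc h0 e
  have h1 : (∑ e : σ → Fin (D + 1), MvPolynomial.monomial (ex e) (c e) : MvPolynomial σ ℂ) = 0 := by
    apply h
    · intro v
      apply MvPolynomial.degreeOf_le_iff.2
      intro m hm
      rw [MvPolynomial.mem_support_iff, MvPolynomial.coeff_sum] at hm
      obtain ⟨e', -, he'⟩ := Finset.exists_ne_zero_of_sum_ne_zero hm
      rw [MvPolynomial.coeff_monomial] at he'
      by_cases h2 : ex e' = m
      · rw [← h2]
        exact Nat.lt_succ_iff.1 (e' v).2
      · rw [if_neg h2] at he'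
        exact absurd rfl he'
    · intro s
      rw [MvPolynomial.coeff_sum]
      apply Submodule.sum_mem
      intro e' _
      rw [MvPolynomial.coeff_monomial]
      split_ifs
      · exact hc _
      · exact W.zero_mem
    · rw [map_sum, ← h0]
      exact Finset.sum_congr rfl fun e' _ => eval_monomial_ex z e' (c e')
  have h2 := congrArg (MvPolynomial.coeff (ex e)) h1
  rw [MvPolynomial.coeff_sum, MvPolynomial.coeff_zero, Finset.sum_eq_single e] at h2
  · rw [MvPolynomial.coeff_monomial, if_pos rfl] at h2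
    exact h2
  · intro e' _ hne
    rw [MvPolynomial.coeff_monomial, if_neg (fun h3 => hne (ex_injective h3))]
  · intro h3
    exact absurd (Finset.mem_univ _) h3

theorem PI.of_indep {σ : Type} [Fintype σ] [DecidableEq σ] {D : ℕ} {W : Submodule QB ℂ} {z : σ → ℂ}
    (h : IndepOver W (mo D z)) : PI D W z := by
  intro Q hdeg hW h0
  have hsupp : Q.support ⊆ (univ : Finset (σ → Fin (D + 1))).image ex := by
    intro M hM
    rw [Finset.mem_image]
    refine ⟨fun i => ⟨M i,
      Nat.lt_succ_of_le ((MvPolynomial.degreeOf_le_iff.1 (hdeg i)) M hM)⟩,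
      Finset.mem_univ _, ?_⟩
    ext v
    rfl
  have h1 : ∑ e : σ → Fin (D + 1), Q.coeff (ex e) * mo D z e = 0 := by
    rw [← h0]
    conv_rhs => rw [← MvPolynomial.support_sum_monomial_coeff Q]
    rw [map_sum, Finset.sum_subset hsupp (by
      intro M _ hM
      rw [MvPolynomial.notMem_support_iff.1 hM, MvPolynomial.monomial_zero, map_zero])]
    rw [Finset.sum_image (fun a _ b _ h => ex_injective h)]
    exact Finset.sum_congr rfl fun e _ => (eval_monomial_ex z e _).symm
  have h2 := h (fun e => Q.coeff (ex e)) (fun e => hW _) h1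
  ext M
  rw [MvPolynomial.coeff_zero]
  by_cases hM : M ∈ Q.support
  · obtain ⟨s, _, rfl⟩ := Finset.mem_image.1 (hsupp hM)
    exact h2 s
  · exact MvPolynomial.notMem_support_iff.1 hM

/-- Reindexing. -/
theorem PI.reindex {σ τ : Type} {D : ℕ} {W : Submodule QB ℂ} {z : σ → ℂ} (e : τ ≃ σ)
    (h : PI D W (z ∘ e)) : PI D W z := by
  intro P hdeg hW h0
  apply MvPolynomial.rename_injective e.symm e.symm.injective
  rw [map_zero]
  apply h
  · intro v
    obtain ⟨u, rfl⟩ := e.symm.surjective v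
    rw [MvPolynomial.degreeOf_rename_of_injective e.symm.injective]
    exact hdeg u
  · intro t
    by_cases ht : (MvPolynomial.rename e.symm P).coeff t = 0
    · rw [ht]; exact W.zero_mem
    · obtain ⟨u, rfl, -⟩ := MvPolynomial.coeff_rename_ne_zero _ _ _ ht
      rw [MvPolynomial.coeff_rename_mapDomain _ e.symm.injective]
      exact hW u
  · rw [MvPolynomial.eval_rename, ← h0]
    congr 2
    funext j
    simp

/-- No variables. -/
theorem PI.empty {σ : Type} [IsEmpty σ] {D : ℕ} {W : Submodule QB ℂ} (z : σ → ℂ) : PI D W z := by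
  intro P _ _ h0
  rw [MvPolynomial.eq_C_of_isEmpty P] at h0 ⊢
  rw [MvPolynomial.eval_C] at h0
  rw [h0, map_zero]

/-- Two sets of variables. -/
theorem PI.sum {σ τ : Type} [Fintype σ] [Fintype τ] [DecidableEq σ] [DecidableEq τ] {D : ℕ} {W : Submodule QB ℂ} {z₀ : σ → ℂ}
    {z : τ → ℂ} (h₀ : PI D W z₀) (h : PI D (famExt W (mo D z₀)) z) :
    PI D W (Sum.elim z₀ z) := by
  apply PI.of_indep
  have h₀' := h₀.indep
  have h' := h.indep
  intro c hc h1 s
  have hmul : ∀ (a : σ → Fin (D + 1)) (b : τ → Fin (D + 1)),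
      mo D (Sum.elim z₀ z) (Sum.elim a b) = mo D z₀ a * mo D z b := by
    intro a b
    simp only [mo, Fintype.prod_sum_type, Sum.elim_inl, Sum.elim_inr]
  have h2 : ∑ b : τ → Fin (D + 1), (∑ a : σ → Fin (D + 1), c (Sum.elim a b) * mo D z₀ a) *
      mo D z b = 0 := by
    have h5 : ∑ e, c e * mo D (Sum.elim z₀ z) e =
        ∑ p : (σ → Fin (D + 1)) × (τ → Fin (D + 1)), c (Sum.elim p.1 p.2) *
          mo D (Sum.elim z₀ z) (Sum.elim p.1 p.2) := by
      refine Fintype.sum_equiv (Equiv.sumArrowEquivProdArrow σ τ (Fin (D + 1))) _ _ fun e => ?_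
      have h6 : Sum.elim ((Equiv.sumArrowEquivProdArrow σ τ (Fin (D + 1))) e).1
          ((Equiv.sumArrowEquivProdArrow σ τ (Fin (D + 1))) e).2 = e := Sum.elim_comp_inl_inr e
      rw [h6]
    rw [← h1, h5, Fintype.sum_prod_type_right]
    refine Finset.sum_congr rfl fun b _ => ?_
    rw [Finset.sum_mul]
    refine Finset.sum_congr rfl fun a _ => ?_
    rw [hmul]
    ring
  have h3 := h' (fun b => ∑ a : σ → Fin (D + 1), c (Sum.elim a b) * mo D z₀ a) (by
    intro b
    apply Submodule.sum_mem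
    intro a _
    exact Submodule.mul_mem_mul (hc _) (Submodule.subset_span ⟨a, rfl⟩)) h2
  have h4 := h₀' (fun a => c (Sum.elim a (s ∘ Sum.inr))) (fun a => hc _) (h3 (s ∘ Sum.inr))
    (s ∘ Sum.inl)
  rw [Sum.elim_comp_inl_inr] at h4
  exact h4

/-- A chosen family of logarithms and exponentials of logarithms of algebraic numbers. -/
theorem PI.of_choice {m D : ℕ} {W : Submodule QB ℂ} {z : Fin m → ℂ}
    (hz : ∀ c, IsAlgebraic ℚ (Complex.exp (z c)))
    (h : ∃ T : Fin m → Fin m ⊕ Fin m, Function.Injective T ∧ IndepOver W (mT (D := D) z T)) :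
    PI D W z := by
  obtain ⟨T, hT, hi⟩ := h
  have hT1 : IndepT W (fun _ : Fin 1 => mT (D := D) z T) := by
    have h1 := Pool.Agent.W245.IndepT.cons hi
      (Pool.Agent.W245.IndepT.zero (famExt W (mT (D := D) z T)) (fun i => i.elim0))
    convert h1 using 1
    funext i
    refine Fin.cases ?_ (fun j => j.elim0) i
    simp
  refine PI.reindex (Equiv.uniqueProd (Fin m) (Fin 1)) (τ := Fin 1 × Fin m) ?_
  intro P hdeg hW h0
  exact no_choice W (fun _ : Fin 1 => z) (fun _ c => hz c) (fun _ => T) (fun _ => hT)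
    (fun Q => poly_of_good (fun _ : Fin 1 => z) (fun _ => T) hT1 Q) P hdeg hW h0

end Pool.Agent.K3h34.PM
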