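import Mathlib
import Pool.Agent.K3h28.NS.Reg
import Pool.Agent.K3h34.PM.Fam

/-!
# The logarithms of all archimedean absolute values over a space of coefficients
-/

set_option autoImplicit false

namespace Pool.Agent.K3h34.PM

open NumberField IsDedekindDomain Finset Module
open Pool.Agent.K3h28.NF
open Pool.Agent.K3h28.NS (abs_alg zv sch_one count_dep to_region)
open Pool.Agent.H301R2.SSE (QB mem_QB)
open Pool.Agent.W245 (IndepOver IndepT famExt famExt_finite)

/-- The logarithms of the absolute values of `x` satisfy a relation over `W`. -/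
def BadW {K : Type} [Field K] [NumberField K] (D : ℕ) (W : Submodule QB ℂ) (x : 𝓞 K) : Prop :=
  x ≠ 0 ∧ ¬ PI D W (fun v : InfinitePlace K => (Real.log (v (x : K)) : ℂ))

/-- **One variable.** -/
theorem pl_one (K : Type) [Field K] [NumberField K] (D d : ℕ) (ε : ℝ)
    (hε : 0 < ε) : ∃ X₀ : ℕ, ∀ X ≥ X₀, ∀ W : Submodule QB ℂ, Module.Finite QB W →
      finrank QB W ≤ d →
      ∀ A : Finset (𝓞 K), A ⊆ bx K X → (∀ x ∈ A, BadW D W x) →
      (A.card : ℝ) ≤ ε * (bx K X).card := by
  classical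
  obtain ⟨X₀, hX₀⟩ := sch_one K (Fintype.card (InfinitePlace K)) D d ε hε
  refine ⟨X₀, fun X hX W hWf hWd A hA hbad => ?_⟩
  set e : Fin (Fintype.card (InfinitePlace K)) ≃ InfinitePlace K := (Fintype.equivFin _).symm with he
  refine hX₀ X hX (fun _ => 0) (fun i v => if e i = v then 1 else 0) ?_ ?_ W hWf hWd A hA ?_
  · intro i v
    show IsAlgebraic ℚ (if e i = v then (1 : ℂ) else 0)
    split_ifs
    · exact isAlgebraic_one
    · exact isAlgebraic_zero
  · rw [Fintype.linearIndependent_iff]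
    intro g hg i
    have h1 := congrFun hg (e i)
    simpa [Finset.sum_apply, Pi.smul_apply, smul_ite, Finset.sum_ite_eq'] using h1
  · intro x hx
    obtain ⟨hx0, hx1⟩ := hbad x hx
    refine ⟨hx0, fun hT => hx1 ?_⟩
    have hz : zv (fun _ => 0) (fun i v => if e i = v then 1 else 0) (x : K) =
        (fun v : InfinitePlace K => (Real.log (v (x : K)) : ℂ)) ∘ e := by
      funext i
      simp [zv]
    rw [hz] at hT
    refine PI.reindex e (PI.of_choice ?_ hT)
    intro c
    have h1 : (e c) (x : K) ≠ 0 := by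
      rw [Ne, map_eq_zero]
      exact_mod_cast hx0
    have h2 : 0 < (e c) (x : K) := lt_of_le_of_ne (apply_nonneg _ _) (Ne.symm h1)
    show IsAlgebraic ℚ (Complex.exp (Real.log ((e c) (x : K)) : ℂ))
    rw [← Complex.ofReal_exp, Real.exp_log h2]
    exact abs_alg _ _

/-- The logarithms of all absolute values of the entries of `x` satisfy a relation over `W`, and no
entry is zero. -/
def BadWT {k : ℕ} {K : Fin k → Type} [∀ i, Field (K i)] [∀ i, NumberField (K i)] (D : ℕ)
    (W : Submodule QB ℂ) (x : ∀ i, 𝓞 (K i)) : Prop :=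
  (∀ i, x i ≠ 0) ∧ ¬ PI D W
    (fun p : Σ i, InfinitePlace (K i) => (Real.log (p.2 (x p.1 : K p.1)) : ℂ))

/-- The places of the first field and of the others. -/
def plEquiv {k : ℕ} (M : Fin (k + 1) → Type) :
    M 0 ⊕ (Σ i : Fin k, M i.succ) ≃ (Σ i, M i) where
  toFun s := match s with
    | Sum.inl m => ⟨0, m⟩
    | Sum.inr ⟨i, m⟩ => ⟨i.succ, m⟩
  invFun s := match s with
    | ⟨i, m⟩ => Fin.cases (motive := fun i => M i → M 0 ⊕ (Σ i : Fin k, M i.succ))
        (fun m => Sum.inl m) (fun i m => Sum.inr ⟨i, m⟩) i m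
  left_inv s := by
    rcases s with _ | ⟨_, _⟩ <;> rfl
  right_inv s := by
    rcases s with ⟨i, m⟩
    induction i using Fin.cases with
    | zero => rfl
    | succ i => rfl

open Classical in
/-- **Tuples.** -/
theorem pl_tup (k : ℕ) : ∀ (K : Fin k → Type) [∀ i, Field (K i)] [∀ i, NumberField (K i)]
    (D d : ℕ) (ε : ℝ), 0 < ε →
    ∃ X₀ : ℕ, ∀ X ≥ X₀, ∀ W : Submodule QB ℂ, Module.Finite QB W → finrank QB W ≤ d →
    (((Fintype.piFinset fun i => bx (K i) X).filter (fun x => BadWT D W x)).card : ℝ) ≤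
      ε * ∏ i, ((bx (K i) X).card : ℝ) := by
  induction k with
  | zero =>
    intro K _ _ D d ε hε
    refine ⟨0, fun X _ W _ _ => ?_⟩
    rw [Finset.filter_false_of_mem]
    · simp [hε.le]
    · intro x _
      rintro ⟨-, hlam⟩
      apply hlam
      have : IsEmpty (Σ i : Fin 0, InfinitePlace (K i)) := ⟨fun p => p.1.elim0⟩
      exact PI.empty _
  | succ k ih =>
    intro K _ _ D d ε hε
    obtain ⟨X₁, hX₁⟩ := pl_one (K 0) D d (ε / 2) (by linarith)
    obtain ⟨X₂, hX₂⟩ := ih (fun i => K i.succ) D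
      (d * Fintype.card (InfinitePlace (K 0) → Fin (D + 1))) (ε / 2) (by linarith)
    refine ⟨max X₁ X₂, fun X hX W hWf hWd => ?_⟩
    refine count_dep k (fun i => 𝓞 (K i)) (fun i => bx (K i) X) (fun x => BadWT D W x) ε hε
      ((bx (K 0) X).filter (fun a : 𝓞 (K 0) => BadW D W a)) (Finset.filter_subset _ _) ?_ ?_
    · exact hX₁ X (le_trans (le_max_left _ _) hX) W hWf hWd _
        (Finset.filter_subset _ _) (fun a ha => (Finset.mem_filter.1 ha).2)
    · intro a ha haE
      by_cases h0 : a = 0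
      · rw [Finset.filter_false_of_mem]
        · simp only [Finset.card_empty, Nat.cast_zero]
          positivity
        · intro m _ hm
          exact hm.1 0 h0
      · have hta : PI D W (fun v : InfinitePlace (K 0) => (Real.log (v (a : K 0)) : ℂ)) := by
          by_contra hcon
          exact haE (Finset.mem_filter.2 ⟨ha, h0, hcon⟩)
        obtain ⟨hfin, hrk⟩ := famExt_finite W d hWd
          (mo D (fun v : InfinitePlace (K 0) => (Real.log (v (a : K 0)) : ℂ)))
        have h1 := hX₂ X (le_trans (le_max_right _ _) hX) _ hfin hrk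
        refine le_trans ?_ h1
        apply Nat.cast_le.2
        apply Finset.card_le_card
        intro m hm
        rw [Finset.mem_filter] at hm ⊢
        refine ⟨hm.1, fun i => hm.2.1 i.succ, fun hN => hm.2.2 ?_⟩
        refine PI.reindex (plEquiv (fun i => InfinitePlace (K i))) ?_
        convert PI.sum hta hN using 1
        funext s
        rcases s with σ | ⟨i, σ⟩ <;> rfl

theorem pl_main (k : ℕ) (K : Fin k → Type) [∀ i, Field (K i)] [∀ i, NumberField (K i)]
    (D d : ℕ) (ε : ℝ) (hε : 0 < ε) :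
    ∃ X₀ : ℝ, ∀ X ≥ X₀, (reg K X).Finite ∧ ∀ W : Submodule QB ℂ, Module.Finite QB W →
      finrank QB W ≤ d →
      ({x | x ∈ reg K X ∧ BadWT D W x}.ncard : ℝ) ≤ ε * (reg K X).ncard := by
  classical
  obtain ⟨R, hR0, hR⟩ := to_region k K
  obtain ⟨X₁, hX₁⟩ := pl_tup k K D d (ε / R) (by positivity)
  refine ⟨max (X₁ : ℝ) 1, fun X hX => ?_⟩
  obtain ⟨N₁, hN₁, hfin, h⟩ := hR ε hε X₁ X hX
  refine ⟨hfin, fun W hWf hWd => ?_⟩
  refine h (fun x => BadWT D W x) ?_
  convert hX₁ N₁ hN₁ W hWf hWd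

end Pool.Agent.K3h34.PM
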